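import Mathlib

/-!
Cayley-Dickson algebras over a field of arbitrary characteristic, varieties of nonassociative
algebras, and local admissibility.
-/

namespace Pool.Agent.H475Z.CD

universe u

/-- A nonassociative algebra over `F` (a vector space with a bilinear product) together with a
linear map `conj`, the involution used by the Cayley-Dickson process. -/
structure InvAlg (F : Type u) [Field F] where
  V : Type u
  [add : AddCommGroup V]
  [mod : Module F V]
  mul : V →ₗ[F] V →ₗ[F] V
  conj : V →ₗ[F] V

attribute [instance] InvAlg.add InvAlg.mod

variable {F : Type u} [Field F]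

/-- The ring structure of the underlying algebra: the product is the bilinear map `mul`. -/
instance InvAlg.ring (A : InvAlg F) : NonUnitalNonAssocRing A.V :=
  { A.add with
    mul := fun x y => A.mul x y
    left_distrib := fun x y z => map_add (A.mul x) y z
    right_distrib := fun x y z => by
      change A.mul (x + y) z = A.mul x z + A.mul y z
      rw [map_add, LinearMap.add_apply]
    zero_mul := fun x => by
      change A.mul 0 x = 0
      rw [map_zero, LinearMap.zero_apply]
    mul_zero := fun x => map_zero (A.mul x) }

instance InvAlg.scalarTower (A : InvAlg F) : IsScalarTower F A.V A.V :=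
  ⟨fun c x y => by
    change A.mul (c • x) y = c • A.mul x y
    rw [map_smul, LinearMap.smul_apply]⟩

instance InvAlg.smulComm (A : InvAlg F) : SMulCommClass F A.V A.V :=
  ⟨fun c x y => (map_smul (A.mul x) c y).symm⟩

/-- The first step `A₁ = F[u]`, `u ^ 2 = u + α`, with involution `u ↦ 1 - u`; the pair `(a, b)`
stands for `a + b u`. -/
def first (α : F) : InvAlg F where
  V := F × F
  mul := LinearMap.mk₂ F
    (fun x y => (x.1 * y.1 + α * (x.2 * y.2), x.1 * y.2 + x.2 * y.1 + x.2 * y.2))
    (fun x y z => by ext <;> simp <;> ring) (fun c x y => by ext <;> simp <;> ring)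
    (fun x y z => by ext <;> simp <;> ring) (fun c x y => by ext <;> simp <;> ring)
  conj :=
    { toFun := fun x => (x.1 + x.2, -x.2)
      map_add' := fun x y => by ext <;> simp <;> ring
      map_smul' := fun c x => by ext <;> simp [mul_add] }

/-- One doubling step `A ⊕ A v` with parameter `γ`; the pair `(a, b)` stands for `a + b v`, and
`(a + b v) (c + d v) = (a c + γ (conj d) b) + (d a + b (conj c)) v`,
`conj (a + b v) = conj a - b v`. -/
def double (A : InvAlg F) (γ : F) : InvAlg F where
  V := A.V × A.V
  mul := LinearMap.mk₂ F
    (fun x y => (x.1 * y.1 + γ • (A.conj y.2 * x.2), y.2 * x.1 + x.2 * A.conj y.1))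
    (fun x y z => by ext <;> simp [add_mul, mul_add] <;> abel)
    (fun c x y => by ext <;> simp [smul_comm c γ, smul_mul_assoc, mul_smul_comm])
    (fun x y z => by ext <;> simp [add_mul, mul_add] <;> abel)
    (fun c x y => by ext <;> simp [smul_comm c γ, smul_mul_assoc, mul_smul_comm])
  conj :=
    { toFun := fun x => (A.conj x.1, -x.2)
      map_add' := fun x y => by ext <;> simp; abel
      map_smul' := fun c x => by ext <;> simp }

/-- `iter A γ k` is obtained from `A` by `k` doubling steps with parameters
`γ 2, γ 3, …, γ (k + 1)`. -/
def iter (A : InvAlg F) (γ : ℕ → F) : ℕ → InvAlg F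
  | 0 => A
  | k + 1 => double (iter A γ k) (γ (k + 2))

/-- The Cayley-Dickson algebra `A_n`, `n ≥ 1`, of dimension `2 ^ n` with parameters
`α, γ 2, …, γ n`. -/
def cd (α : F) (γ : ℕ → F) (n : ℕ) : InvAlg F := iter (first α) γ (n - 1)

section Varieties

variable (F)

/-- The nonassociative polynomial `f` (in countably many variables) is an identity of `A`: it
vanishes under every substitution of elements of `A` for the variables. -/
def IsIdentity (A : Type u) [NonUnitalNonAssocRing A] [Module F A] [IsScalarTower F A A]
    [SMulCommClass F A A] (f : FreeNonUnitalNonAssocAlgebra F ℕ) : Prop :=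
  ∀ x : ℕ → A, FreeNonUnitalNonAssocAlgebra.lift F x f = 0

/-- `B` is nilpotent: for some `m`, every product of `m` elements of `B`, under every bracketing,
is zero. -/
def IsNilpotentAlg (B : Type u) [Mul B] [Zero B] : Prop :=
  ∃ m : ℕ, 1 ≤ m ∧ ∀ w : FreeMagma B, w.length = m → FreeMagma.lift id w = 0

/-- Every finitely generated subalgebra of `B` is nilpotent. -/
def IsLocallyNilpotent (B : Type u) [NonUnitalNonAssocRing B] [Module F B] [IsScalarTower F B B]
    [SMulCommClass F B B] : Prop :=
  ∀ s : Finset B, IsNilpotentAlg (NonUnitalAlgebra.adjoin F (s : Set B))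

/-- The variety generated by `A` is locally admissible: every algebra `B` that satisfies all
identities of `A` and is anticommutative (in the strong form `x * x = 0`) is locally nilpotent. -/
def LocallyAdmissible (A : Type u) [NonUnitalNonAssocRing A] [Module F A] [IsScalarTower F A A]
    [SMulCommClass F A A] : Prop :=
  ∀ (B : Type u) [NonUnitalNonAssocRing B] [Module F B] [IsScalarTower F B B]
    [SMulCommClass F B B], (∀ f, IsIdentity F A f → IsIdentity F B f) → (∀ x : B, x * x = 0) →
      IsLocallyNilpotent F B

end Varieties

end Pool.Agent.H475Z.CD
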