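import Pool.Agent.H475Z.CD.Transfer

namespace Pool.Agent.H475Z.CD

set_option linter.unusedSimpArgs false

universe u
variable {F : Type u} [Field F]

theorem firstR_mul (R : Type u) [CommRing R] [Algebra F R] (α : F) (a b c d : R) :
    (HMul.hMul (α := (firstR R α).V) (β := (firstR R α).V) (γ := (firstR R α).V) (a, b) (c, d)) =
      (a * c + algebraMap F R α * (b * d), a * d + b * c + b * d) := rfl

theorem firstR_conj (R : Type u) [CommRing R] [Algebra F R] (α : F) (a b : R) :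
    (firstR R α).conj (a, b) = (a + b, -b) := rfl

/-- The two-dimensional non-abelian Lie algebra. -/
def lie2 (F : Type u) [Field F] : InvAlg F where
  V := F × F
  mul := LinearMap.mk₂ F (fun x y => (0, x.1 * y.2 - x.2 * y.1))
    (fun x y z => by ext <;> simp; ring) (fun c x y => by ext <;> simp; ring)
    (fun x y z => by ext <;> simp; ring) (fun c x y => by ext <;> simp; ring)
  conj := LinearMap.id

theorem lie2_mul (a b c d : F) :
    (HMul.hMul (α := (lie2 F).V) (β := (lie2 F).V) (γ := (lie2 F).V) (a, b) (c, d)) =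
      (0, a * d - b * c) := rfl

theorem lie2_sq (x : (lie2 F).V) : x * x = 0 := by
  obtain ⟨a, b⟩ := x
  rw [lie2_mul]
  change ((0, a * b - b * a) : F × F) = (0, 0)
  rw [mul_comm, sub_self]

theorem lie2_not_nil : ¬ IsLocallyNilpotent F (lie2 F).V := by
  classical
  intro h
  let a : (lie2 F).V := ((1 : F), (0 : F))
  let b : (lie2 F).V := ((0 : F), (1 : F))
  obtain ⟨m, hm, H⟩ := h {a, b}
  let S := NonUnitalAlgebra.adjoin F ((({a, b} : Finset (lie2 F).V)) : Set (lie2 F).V)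
  let a' : S := ⟨a, NonUnitalAlgebra.subset_adjoin F (by simp)⟩
  let b' : S := ⟨b, NonUnitalAlgebra.subset_adjoin F (by simp)⟩
  have hab : a' * b' = b' := by
    apply Subtype.ext
    change a * b = b
    rw [lie2_mul]
    simp [b]
  let w : ℕ → FreeMagma S := fun k => Nat.rec (FreeMagma.of b') (fun _ v => FreeMagma.of a' * v) k
  have hw : ∀ k, (w k).length = k + 1 ∧ FreeMagma.lift id (w k) = b' := by
    intro k
    induction k with
    | zero => exact ⟨rfl, rfl⟩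
    | succ k ih =>
      refine ⟨?_, ?_⟩
      · change 1 + (w k).length = k + 1 + 1
        rw [ih.1]; ring
      · change FreeMagma.lift id (FreeMagma.of a' * w k) = b'
        rw [map_mul, ih.2]
        exact hab
  have h0 := H (w (m - 1)) (by rw [(hw _).1]; omega)
  rw [(hw _).2] at h0
  have h1 : b = 0 := congrArg Subtype.val h0
  have h2 : (1 : F) = 0 := congrArg Prod.snd h1
  exact one_ne_zero h2

/-- A pair `a, b` spanning a copy of the non-abelian two-dimensional Lie algebra. -/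
theorem lie2_identity {A : Type u} [NonUnitalNonAssocRing A] [Module F A] [IsScalarTower F A A]
    [SMulCommClass F A A] (a b : A) (haa : a * a = 0) (hbb : b * b = 0) (hab : a * b = b)
    (hba : b * a = -b) (hb : b ≠ 0) {f : FreeNonUnitalNonAssocAlgebra F ℕ}
    (hf : IsIdentity F A f) : IsIdentity F (lie2 F).V f := by
  let φ : (lie2 F).V →ₙₐ[F] A :=
    { toFun := fun x => x.1 • a + x.2 • b
      map_smul' := by
        rintro c ⟨x, y⟩
        change (c * x) • a + (c * y) • b = c • (x • a + y • b)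
        simp [mul_smul]
      map_zero' := by
        change (0 : F) • a + (0 : F) • b = 0
        simp
      map_add' := by
        rintro ⟨x, y⟩ ⟨z, t⟩
        change (x + z) • a + (y + t) • b = (x • a + y • b) + (z • a + t • b)
        simp only [add_smul]; abel
      map_mul' := by
        rintro ⟨x, y⟩ ⟨z, t⟩
        change (0 : F) • a + (x * t - y * z) • b = (x • a + y • b) * (z • a + t • b)
        simp only [add_mul, mul_add, smul_mul_assoc, mul_smul_comm, haa, hbb, hab, hba, smul_zero,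
          zero_smul, smul_neg, sub_smul]
        module }
  refine IsIdentity.of_sep (ι := Unit) (fun _ => φ) ?_ hf
  rintro ⟨x, y⟩ h
  have h1 : x • a + y • b = 0 := h ()
  have h2 : x • b = 0 := by
    have := congrArg (· * b) h1
    simpa [add_mul, smul_mul_assoc, hab, hbb] using this
  have hx : x = 0 := (smul_eq_zero.mp h2).resolve_right hb
  rw [hx, zero_smul, zero_add] at h1
  have hy : y = 0 := (smul_eq_zero.mp h1).resolve_right hb
  rw [hx, hy]; rfl

section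
variable (A : InvAlg F) (γ : F) (x y : (double A γ).V) (t : F)
theorem dm1 : (x * y).1 = x.1 * y.1 + γ • (A.conj y.2 * x.2) := rfl
theorem dm2 : (x * y).2 = y.2 * x.1 + x.2 * A.conj y.1 := rfl
theorem da1 : (x + y).1 = x.1 + y.1 := rfl
theorem da2 : (x + y).2 = x.2 + y.2 := rfl
theorem dn1 : (-x).1 = -x.1 := rfl
theorem dn2 : (-x).2 = -x.2 := rfl
theorem ds1 : (t • x).1 = t • x.1 := rfl
theorem ds2 : (t • x).2 = t • x.2 := rfl
theorem dc1 : ((double A γ).conj x).1 = A.conj x.1 := rfl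
theorem dc2 : ((double A γ).conj x).2 = -x.2 := rfl
theorem dz1 : (0 : (double A γ).V).1 = 0 := rfl
theorem dz2 : (0 : (double A γ).V).2 = 0 := rfl
theorem dext (h1 : x.1 = y.1) (h2 : x.2 = y.2) : x = y := Prod.ext h1 h2
end

section
variable (R : Type u) [CommRing R] [Algebra F R] (α : F) (x y : (firstR R α).V) (t : F)
theorem fm1 : (x * y).1 = x.1 * y.1 + algebraMap F R α * (x.2 * y.2) := rfl
theorem fm2 : (x * y).2 = x.1 * y.2 + x.2 * y.1 + x.2 * y.2 := rfl
theorem fa1 : (x + y).1 = x.1 + y.1 := rfl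
theorem fa2 : (x + y).2 = x.2 + y.2 := rfl
theorem fn1 : (-x).1 = -x.1 := rfl
theorem fn2 : (-x).2 = -x.2 := rfl
theorem fs1 : (t • x).1 = algebraMap F R t * x.1 := Algebra.smul_def t x.1
theorem fs2 : (t • x).2 = algebraMap F R t * x.2 := Algebra.smul_def t x.2
theorem fc1 : ((firstR R α).conj x).1 = x.1 + x.2 := rfl
theorem fc2 : ((firstR R α).conj x).2 = -x.2 := rfl
theorem fz1 : (0 : (firstR R α).V).1 = 0 := rfl
theorem fz2 : (0 : (firstR R α).V).2 = 0 := rfl
theorem fext (h1 : x.1 = y.1) (h2 : x.2 = y.2) : x = y := Prod.ext h1 h2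
end

theorem exists_pair (K : Type u) [Field K] [Algebra F K] (α : F) (γ : ℕ → F) (r s c d : K)
    (hr : r * r = r + algebraMap F K α) (hs : s * s = algebraMap F K (γ 4))
    (hc : c * algebraMap F K (γ 2) * (2 * r - 1) = 1) (hd : d * s * (2 * r - 1) = 1) :
    ∃ a b : (iter (firstR K α) γ 3).V, a * a = 0 ∧ b * b = 0 ∧ a * b = b ∧ b * a = -b ∧ b ≠ 0 := by
  let A1 := firstR K α
  let A2 := double A1 (γ 2)
  let A3 := double A2 (γ 3)
  let A4 := double A3 (γ 4)
  let z1 : A1.V := ((0 : K), (0 : K))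
  let z2 : A2.V := (z1, z1)
  let x : A1.V := (c * r, -c)
  let y : A1.V := (d * (r - 1), d)
  let e : A1.V := (r - 1, 1)
  let ne : A1.V := (1 - r, -1)
  let se : A1.V := (s * (r - 1), s)
  let p : A2.V := (z1, x)
  let q : A2.V := (z1, y)
  let h : A2.V := (se, se)
  let k : A2.V := (e, ne)
  let a1 : A3.V := (p, z2)
  let a2 : A3.V := (q, z2)
  let b1 : A3.V := (z2, h)
  let b2 : A3.V := (z2, k)
  let a : A4.V := (a1, a2)
  let b : A4.V := (b1, b2)
  change ∃ a b : A4.V, a * a = 0 ∧ b * b = 0 ∧ a * b = b ∧ b * a = -b ∧ b ≠ 0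
  refine ⟨a, b, ?_, ?_, ?_, ?_, ?_⟩
  · refine dext _ _ _ _ (dext _ _ _ _ (dext _ _ _ _ (fext _ _ _ _ ?_ ?_) (fext _ _ _ _ ?_ ?_))
      (dext _ _ _ _ (fext _ _ _ _ ?_ ?_) (fext _ _ _ _ ?_ ?_)))
      (dext _ _ _ _ (dext _ _ _ _ (fext _ _ _ _ ?_ ?_) (fext _ _ _ _ ?_ ?_))
      (dext _ _ _ _ (fext _ _ _ _ ?_ ?_) (fext _ _ _ _ ?_ ?_))) <;>
    simp only [A1, A2, A3, A4, a, b, a1, a2, b1, b2, p, q, h, k, x, y, e, ne, se, z1, z2, dm1, dm2,
      da1, da2, dn1, dn2, ds1, ds2, dc1, dc2, dz1, dz2, fm1, fm2, fa1, fa2, fn1, fn2, fs1, fs2,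
      fc1, fc2, fz1, fz2] <;> grind
  · refine dext _ _ _ _ (dext _ _ _ _ (dext _ _ _ _ (fext _ _ _ _ ?_ ?_) (fext _ _ _ _ ?_ ?_))
      (dext _ _ _ _ (fext _ _ _ _ ?_ ?_) (fext _ _ _ _ ?_ ?_)))
      (dext _ _ _ _ (dext _ _ _ _ (fext _ _ _ _ ?_ ?_) (fext _ _ _ _ ?_ ?_))
      (dext _ _ _ _ (fext _ _ _ _ ?_ ?_) (fext _ _ _ _ ?_ ?_))) <;>
    simp only [A1, A2, A3, A4, a, b, a1, a2, b1, b2, p, q, h, k, x, y, e, ne, se, z1, z2, dm1, dm2,
      da1, da2, dn1, dn2, ds1, ds2, dc1, dc2, dz1, dz2, fm1, fm2, fa1, fa2, fn1, fn2, fs1, fs2,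
      fc1, fc2, fz1, fz2] <;> grind
  · refine dext _ _ _ _ (dext _ _ _ _ (dext _ _ _ _ (fext _ _ _ _ ?_ ?_) (fext _ _ _ _ ?_ ?_))
      (dext _ _ _ _ (fext _ _ _ _ ?_ ?_) (fext _ _ _ _ ?_ ?_)))
      (dext _ _ _ _ (dext _ _ _ _ (fext _ _ _ _ ?_ ?_) (fext _ _ _ _ ?_ ?_))
      (dext _ _ _ _ (fext _ _ _ _ ?_ ?_) (fext _ _ _ _ ?_ ?_))) <;>
    simp only [A1, A2, A3, A4, a, b, a1, a2, b1, b2, p, q, h, k, x, y, e, ne, se, z1, z2, dm1, dm2,
      da1, da2, dn1, dn2, ds1, ds2, dc1, dc2, dz1, dz2, fm1, fm2, fa1, fa2, fn1, fn2, fs1, fs2,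
      fc1, fc2, fz1, fz2] <;> grind
  · refine dext _ _ _ _ (dext _ _ _ _ (dext _ _ _ _ (fext _ _ _ _ ?_ ?_) (fext _ _ _ _ ?_ ?_))
      (dext _ _ _ _ (fext _ _ _ _ ?_ ?_) (fext _ _ _ _ ?_ ?_)))
      (dext _ _ _ _ (dext _ _ _ _ (fext _ _ _ _ ?_ ?_) (fext _ _ _ _ ?_ ?_))
      (dext _ _ _ _ (fext _ _ _ _ ?_ ?_) (fext _ _ _ _ ?_ ?_))) <;>
    simp only [A1, A2, A3, A4, a, b, a1, a2, b1, b2, p, q, h, k, x, y, e, ne, se, z1, z2, dm1, dm2,
      da1, da2, dn1, dn2, ds1, ds2, dc1, dc2, dz1, dz2, fm1, fm2, fa1, fa2, fn1, fn2, fs1, fs2,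
      fc1, fc2, fz1, fz2] <;> grind
  · intro h0
    have : (1 : K) = 0 := congrArg (fun v : A4.V => v.2.2.1.2) h0
    exact one_ne_zero this

end Pool.Agent.H475Z.CD
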