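import Pool.Agent.H475Z.CD.Lie

namespace Pool.Agent.H475Z.CD

set_option linter.unusedSimpArgs false

universe u
variable {F : Type u} [Field F]

/-- The properties of a quadratic algebra with nondegenerate norm that pass to the double. -/
structure Good (A : InvAlg F) (o : A.V) : Prop where
  one_mul : ∀ x, o * x = x
  mul_one : ∀ x, x * o = x
  ne_zero : o ≠ 0
  conj_one : A.conj o = o
  conj_conj : ∀ x, A.conj (A.conj x) = x
  trace : ∀ x, ∃ t : F, x + A.conj x = t • o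
  norm : ∀ x, ∃ c : F, x * A.conj x = c • o ∧ A.conj x * x = c • o
  nondeg : ∀ x, x ≠ 0 → ∃ y, ∃ c : F, c ≠ 0 ∧ x * A.conj y + y * A.conj x = c • o

theorem Good.swap {A : InvAlg F} {o : A.V} (h : Good A o) (x y : A.V) :
    A.conj x * y + A.conj y * x = x * A.conj y + y * A.conj x := by
  obtain ⟨c, h1, h2⟩ := h.norm (x + y)
  obtain ⟨c1, h3, h4⟩ := h.norm x
  obtain ⟨c2, h5, h6⟩ := h.norm y
  have := h1.trans h2.symm
  simp only [map_add, add_mul, mul_add, h3, h4, h5, h6] at this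
  have e : A.conj x * y + A.conj y * x - (x * A.conj y + y * A.conj x) =
      (c1 • o + A.conj y * x + (A.conj x * y + c2 • o)) -
        (c1 • o + y * A.conj x + (x * A.conj y + c2 • o)) := by abel
  rw [← sub_eq_zero, e, this, sub_self]

theorem Good.double {A : InvAlg F} {o : A.V} (h : Good A o) {γ : F} (hγ : γ ≠ 0) :
    Good (double A γ) (o, 0) where
  one_mul x := dext _ _ _ _ (by simp [dm1, h.one_mul]) (by simp [dm2, h.mul_one])
  mul_one x := dext _ _ _ _ (by simp [dm1, h.mul_one]) (by simp [dm2, h.mul_one, h.conj_one])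
  ne_zero e := h.ne_zero (congrArg Prod.fst e)
  conj_one := dext _ _ _ _ (by simp [dc1, h.conj_one]) (by simp [dc2])
  conj_conj x := dext _ _ _ _ (by simp [dc1, h.conj_conj]) (by simp [dc2])
  trace x := by
    obtain ⟨t, ht⟩ := h.trace x.1
    exact ⟨t, dext _ _ _ _ (by simp [da1, dc1, ds1, ht]) (by simp [da2, dc2, ds2])⟩
  norm x := by
    obtain ⟨c, h1, h2⟩ := h.norm x.1
    obtain ⟨d, h3, h4⟩ := h.norm x.2
    refine ⟨c - γ * d, dext _ _ _ _ ?_ ?_, dext _ _ _ _ ?_ ?_⟩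
    · rw [ds1]
      simp [dm1, dc1, dc2, h1, h4, mul_smul, sub_eq_add_neg, add_smul]
    · simp [dm2, dc1, dc2, ds2, h.conj_conj]
    · rw [ds1]
      simp [dm1, dc1, dc2, h2, h4, mul_smul, sub_eq_add_neg, add_smul]
    · simp [dm2, dc1, dc2, ds2]
  nondeg x hx := by
    by_cases h1 : x.1 = 0
    · have h2 : x.2 ≠ 0 := fun h2 => hx (dext _ _ _ _ h1 h2)
      obtain ⟨y, c, hc, e⟩ := h.nondeg x.2 h2
      refine ⟨(0, y), -(γ * c), neg_ne_zero.mpr (mul_ne_zero hγ hc), dext _ _ _ _ ?_ ?_⟩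
      · have := h.swap x.2 y
        rw [e] at this
        rw [ds1, neg_smul, mul_smul, ← this]
        simp only [da1, dm1, dc1, dc2, h1, map_zero, mul_zero, map_neg, neg_mul, zero_add,
          smul_neg, smul_add]
        abel
      · rw [ds2]
        simp [da2, dm2, dc1, dc2, h1]
    · obtain ⟨y, c, hc, e⟩ := h.nondeg x.1 h1
      refine ⟨(y, 0), c, hc, dext _ _ _ _ ?_ ?_⟩
      · simp [da1, dm1, dc1, dc2, ds1, e]
      · simp [da2, dm2, dc1, dc2, ds2, h.conj_conj]

theorem good_first {α : F} (hα : 1 + 4 * α ≠ 0) : Good (firstR F α) ((1 : F), (0 : F)) where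
  one_mul x := fext _ _ _ _ (by simp [fm1]) (by simp [fm2])
  mul_one x := fext _ _ _ _ (by simp [fm1]) (by simp [fm2])
  ne_zero e := one_ne_zero (congrArg Prod.fst e)
  conj_one := fext _ _ _ _ (by simp [fc1]) (by simp [fc2])
  conj_conj x := fext _ _ _ _ (by simp [fc1, fc2]) (by simp [fc2])
  trace x := ⟨2 * x.1 + x.2, fext _ _ _ _ (by simp [fa1, fc1, fs1]; ring) (by simp [fa2, fc2, fs2])⟩
  norm x := ⟨x.1 * x.1 + x.1 * x.2 - α * (x.2 * x.2),
    fext _ _ _ _ (by simp [fm1, fc1, fc2, fs1]; ring) (by simp [fm2, fc1, fc2, fs2]; ring),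
    fext _ _ _ _ (by simp [fm1, fc1, fc2, fs1]; ring) (by simp [fm2, fc1, fc2, fs2]; ring)⟩
  nondeg x hx := by
    by_cases h1 : 2 * x.1 + x.2 = 0
    · refine ⟨((0 : F), (1 : F)), x.1 - 2 * α * x.2, ?_, fext _ _ _ _ ?_ ?_⟩
      · intro h2
        have h3 : x.1 = 0 := by
          have : (1 + 4 * α) * x.1 = 0 := by linear_combination h2 + 2 * α * h1
          exact (mul_eq_zero.mp this).resolve_left hα
        have h4 : x.2 = 0 := by linear_combination h1 - 2 * h3
        exact hx (fext _ _ _ _ h3 h4)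
      · simp [fa1, fm1, fc1, fc2, fs1]; ring
      · simp [fa2, fm2, fc1, fc2, fs2]
    · refine ⟨((1 : F), (0 : F)), 2 * x.1 + x.2, h1, fext _ _ _ _ ?_ ?_⟩
      · simp [fa1, fm1, fc1, fc2, fs1]; ring
      · simp [fa2, fm2, fc1, fc2, fs2]

/-- Some commutator has nonzero norm. -/
def HasComm (A : InvAlg F) (o : A.V) : Prop :=
  ∃ y z : A.V, ∃ c : F, c ≠ 0 ∧ (y * z - z * y) * A.conj (y * z - z * y) = c • o

theorem HasComm.double {A : InvAlg F} {o : A.V} (h : HasComm A o) (γ : F) :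
    HasComm (double A γ) (o, 0) := by
  obtain ⟨y, z, c, hc, e⟩ := h
  refine ⟨(y, 0), (z, 0), c, hc, dext _ _ _ _ ?_ ?_⟩
  · simp only [sub_eq_add_neg] at e ⊢
    simp only [da1, da2, dn1, dn2, dm1, dm2, dc1, dc2, ds1, mul_zero, smul_zero, add_zero,
      zero_mul, neg_zero, e]
  · simp only [sub_eq_add_neg, da1, da2, dn1, dn2, dm1, dm2, dc1, dc2, ds2, mul_zero, smul_zero,
      add_zero, zero_mul, neg_zero]

theorem hasComm_two {α γ : F} (hα : 1 + 4 * α ≠ 0) (hγ : γ ≠ 0) :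
    HasComm (double (firstR F α) γ) (((1 : F), (0 : F)), 0) := by
  refine ⟨(((0 : F), (1 : F)), ((0 : F), (0 : F))), (((0 : F), (0 : F)), ((1 : F), (0 : F))),
    γ * (1 + 4 * α), mul_ne_zero hγ hα,
    dext _ _ _ _ (fext _ _ _ _ ?_ ?_) (fext _ _ _ _ ?_ ?_)⟩ <;>
  simp only [sub_eq_add_neg, dm1, dm2, da1, da2, dn1, dn2, ds1, ds2, dc1, dc2, fm1, fm2, fa1, fa2,
    fn1, fn2, fs1, fs2, fc1, fc2, fz1, fz2, Algebra.algebraMap_self, RingHom.id_apply] <;> ring

theorem Good.simple {A : InvAlg F} {o : A.V} (h : Good A o) (hc : HasComm A o) :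
    IsSimpleRing A.V := by
  have hsm : ∀ (I : TwoSidedIdeal A.V) (c : F) (x : A.V), x ∈ I → c • x ∈ I := by
    intro I c x hx
    have := I.mul_mem_left (c • o) x hx
    rwa [smul_mul_assoc, h.one_mul] at this
  have htop : ∀ (I : TwoSidedIdeal A.V) (c : F), c ≠ 0 → c • o ∈ I → I = ⊤ := by
    intro I c hc0 hI
    have h1 := hsm I c⁻¹ _ hI
    rw [smul_smul, inv_mul_cancel₀ hc0, one_smul] at h1
    refine eq_top_iff.mpr fun x _ => ?_
    have := I.mul_mem_right o x h1
    rwa [h.one_mul] at this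
  have : Nontrivial (TwoSidedIdeal A.V) := ⟨⊥, ⊤, fun e => h.ne_zero (by
    have : o ∈ (⊥ : TwoSidedIdeal A.V) := by rw [e]; exact TwoSidedIdeal.mem_top _
    exact (TwoSidedIdeal.mem_bot _).mp this)⟩
  refine ⟨⟨fun I => ?_⟩⟩
  by_cases hI : I = ⊥
  · exact Or.inl hI
  right
  obtain ⟨x, hx, hx0⟩ : ∃ x, x ∈ I ∧ x ≠ 0 := by
    by_contra hne
    push Not at hne
    exact hI (eq_bot_iff.mpr fun x hx => (TwoSidedIdeal.mem_bot _).mpr (hne x hx))
  obtain ⟨t, ht⟩ := h.trace x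
  have hcx : A.conj x = t • o - x := by rw [← ht]; abel
  have key : ∀ y, x * A.conj y + y * A.conj x - t • y ∈ I := by
    intro y
    have : x * A.conj y + y * A.conj x - t • y = x * A.conj y - y * x := by
      rw [hcx, mul_sub, mul_smul_comm, h.mul_one]; abel
    rw [this]
    exact I.sub_mem (I.mul_mem_right _ _ hx) (I.mul_mem_left _ _ hx)
  by_cases ht0 : t = 0
  · obtain ⟨y, c, hc0, e⟩ := h.nondeg x hx0
    have := key y
    rw [e, ht0, zero_smul, sub_zero] at this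
    exact htop I c hc0 this
  · have hy : ∀ y, ∃ c : F, y - c • o ∈ I := by
      intro y
      obtain ⟨c0, h0, -⟩ := h.norm (x + y)
      obtain ⟨c1, h1, -⟩ := h.norm x
      obtain ⟨c2, h2, -⟩ := h.norm y
      have e : x * A.conj y + y * A.conj x = (c0 - c1 - c2) • o := by
        simp only [map_add, add_mul, mul_add, h1, h2] at h0
        rw [sub_smul, sub_smul, ← h0]; abel
      have := hsm I (-t⁻¹) _ (key y)
      rw [e, smul_sub, smul_smul, smul_smul, neg_mul t⁻¹ t, inv_mul_cancel₀ ht0] at this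
      refine ⟨t⁻¹ * (c0 - c1 - c2), ?_⟩
      convert this using 1
      module
    obtain ⟨y, z, c, hc0, e⟩ := hc
    obtain ⟨cy, hcy⟩ := hy y
    have hw : y * z - z * y ∈ I := by
      have : y * z - z * y = (y - cy • o) * z - z * (y - cy • o) := by
        rw [sub_mul, mul_sub, smul_mul_assoc, mul_smul_comm, h.one_mul, h.mul_one]; abel
      rw [this]
      exact I.sub_mem (I.mul_mem_right _ _ hcy) (I.mul_mem_left _ _ hcy)
    exact htop I c hc0 (e ▸ I.mul_mem_right _ _ hw)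

theorem iter_good {α : F} {γ : ℕ → F} (hα : 1 + 4 * α ≠ 0) :
    ∀ k, (∀ j, 2 ≤ j → j ≤ k + 2 → γ j ≠ 0) →
      ∃ o, Good (iter (firstR F α) γ (k + 1)) o ∧ HasComm (iter (firstR F α) γ (k + 1)) o
  | 0 => fun hγ => ⟨_, (good_first hα).double (hγ 2 le_rfl le_rfl),
      hasComm_two hα (hγ 2 le_rfl le_rfl)⟩
  | k + 1 => fun hγ => by
    obtain ⟨o, h1, h2⟩ := iter_good hα k (fun j h h' => hγ j h (by omega))
    exact ⟨_, h1.double (hγ (k + 3) (by omega) le_rfl), h2.double _⟩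

theorem main [Infinite F] (α : F) (γ : ℕ → F) (n : ℕ) (hn : 4 ≤ n) (hα : 1 + 4 * α ≠ 0)
    (hγ : ∀ k, 2 ≤ k → k ≤ n → γ k ≠ 0) :
    IsSimpleRing (cd α γ n).V ∧ ¬ LocallyAdmissible F (cd α γ n).V := by
  obtain ⟨m, rfl⟩ : ∃ m, n = m + 4 := ⟨n - 4, by omega⟩
  refine ⟨?_, fun h => ?_⟩
  · obtain ⟨o, h1, h2⟩ := iter_good hα (m + 2) hγ
    exact h1.simple h2
  · refine lie2_not_nil (h (lie2 F).V (fun f hf => ?_) lie2_sq)
    let K := AlgebraicClosure F
    have hf1 : IsIdentity F (iter (first α) γ (3 + m)).V f := by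
      have : 3 + m = m + 4 - 1 := by omega
      rw [this]; exact hf
    have hf2 := identity_ext K α γ 3 (identity_down _ γ 3 m hf1)
    obtain ⟨δ, hδ⟩ := IsAlgClosed.exists_eq_mul_self (algebraMap F K (γ 4))
    obtain ⟨r, hr⟩ : ∃ r : K, r * r = r + algebraMap F K α := by
      obtain ⟨r, hr⟩ := IsAlgClosed.exists_root
        (Polynomial.X ^ 2 - Polynomial.X - Polynomial.C (algebraMap F K α)) (by
          have : (Polynomial.X ^ 2 - Polynomial.X - Polynomial.C (algebraMap F K α)).degree = 2 := by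
            compute_degree!
          rw [this]; norm_num)
      refine ⟨r, ?_⟩
      simp only [Polynomial.IsRoot, Polynomial.eval_sub, Polynomial.eval_pow, Polynomial.eval_X,
        Polynomial.eval_C] at hr
      linear_combination hr
    have inj := (algebraMap F K).injective
    have h2 : algebraMap F K (γ 2) ≠ 0 := (map_ne_zero_iff _ inj).mpr (hγ 2 le_rfl (by omega))
    have h4 : δ ≠ 0 := by
      rintro rfl
      exact (map_ne_zero_iff _ inj).mpr (hγ 4 (by omega) (by omega)) (by rw [hδ, mul_zero])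
    have hr0 : 2 * r - 1 ≠ 0 := by
      intro h0
      apply (map_ne_zero_iff _ inj).mpr hα
      rw [map_add, map_mul, map_one, map_ofNat]
      linear_combination (2 * r - 1) * h0 - 4 * hr
    obtain ⟨a, b, haa, hbb, hab, hba, hb⟩ := exists_pair K α γ r δ
      (algebraMap F K (γ 2) * (2 * r - 1))⁻¹ (δ * (2 * r - 1))⁻¹ hr hδ.symm
      (by rw [mul_assoc]; exact inv_mul_cancel₀ (mul_ne_zero h2 hr0))
      (by rw [mul_assoc]; exact inv_mul_cancel₀ (mul_ne_zero h4 hr0))
    exact lie2_identity a b haa hbb hab hba hb hf2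

end Pool.Agent.H475Z.CD
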