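import Pool.Agent.H475Z.CD.Defs

namespace Pool.Agent.H475Z.CD

universe u
variable {F : Type u} [Field F]

theorem double_mul (A : InvAlg F) (γ : F) (a b c d : A.V) :
    (HMul.hMul (α := (double A γ).V) (β := (double A γ).V) (γ := (double A γ).V) (a, b) (c, d)) =
      (a * c + γ • (A.conj d * b), d * a + b * A.conj c) := rfl

theorem double_conj (A : InvAlg F) (γ : F) (a b : A.V) :
    (double A γ).conj (a, b) = (A.conj a, -b) := rfl

/-- The first step with coefficients in a commutative `F`-algebra. -/
def firstR (R : Type u) [CommRing R] [Algebra F R] (α : F) : InvAlg F where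
  V := R × R
  mul := LinearMap.mk₂ F
    (fun x y => (x.1 * y.1 + algebraMap F R α * (x.2 * y.2), x.1 * y.2 + x.2 * y.1 + x.2 * y.2))
    (fun x y z => by ext <;> simp <;> ring)
    (fun c x y => by ext <;> simp [Algebra.smul_def] <;> ring)
    (fun x y z => by ext <;> simp <;> ring)
    (fun c x y => by ext <;> simp [Algebra.smul_def] <;> ring)
  conj :=
    { toFun := fun x => (x.1 + x.2, -x.2)
      map_add' := fun x y => by ext <;> simp <;> ring
      map_smul' := fun c x => by ext <;> simp }

/-- Homomorphisms of algebras with involution. -/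
structure Hom (A B : InvAlg F) where
  f : A.V →ₗ[F] B.V
  map_mul : ∀ x y, f (x * y) = f x * f y
  map_conj : ∀ x, f (A.conj x) = B.conj (f x)

def Hom.toAlg {A B : InvAlg F} (h : Hom A B) : A.V →ₙₐ[F] B.V where
  toFun := h.f
  map_smul' := h.f.map_smul
  map_zero' := h.f.map_zero
  map_add' := h.f.map_add
  map_mul' := h.map_mul

def Hom.double {A B : InvAlg F} (h : Hom A B) (γ : F) : Hom (double A γ) (double B γ) where
  f := LinearMap.prodMap h.f h.f
  map_mul := by
    rintro ⟨a, b⟩ ⟨c, d⟩
    change (h.f (a * c + γ • (A.conj d * b)), h.f (d * a + b * A.conj c)) =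
      (h.f a * h.f c + γ • (B.conj (h.f d) * h.f b), h.f d * h.f a + h.f b * B.conj (h.f c))
    simp only [map_add, map_smul, h.map_mul, h.map_conj]
  map_conj := by
    rintro ⟨a, b⟩
    change (h.f (A.conj a), h.f (-b)) = (B.conj (h.f a), -h.f b)
    simp only [map_neg, h.map_conj]

def Hom.iter {A B : InvAlg F} (h : Hom A B) (γ : ℕ → F) : ∀ k, Hom (iter A γ k) (iter B γ k)
  | 0 => h
  | k + 1 => (Hom.iter h γ k).double (γ (k + 2))

theorem Hom.iter_surj {A B : InvAlg F} (h : Hom A B) (γ : ℕ → F)
    (hs : Function.Surjective h.f) : ∀ k, Function.Surjective (h.iter γ k).f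
  | 0 => hs
  | k + 1 => by
    rintro ⟨a, b⟩
    obtain ⟨a', ha⟩ := Hom.iter_surj h γ hs k a
    obtain ⟨b', hb⟩ := Hom.iter_surj h γ hs k b
    exact ⟨(a', b'), Prod.ext ha hb⟩

theorem Hom.iter_sep {ι : Type*} {A B : InvAlg F} (h : ι → Hom A B) (γ : ℕ → F)
    (hs : ∀ x, (∀ i, (h i).f x = 0) → x = 0) :
    ∀ k x, (∀ i, ((h i).iter γ k).f x = 0) → x = 0
  | 0 => hs
  | k + 1 => by
    rintro ⟨a, b⟩ hx
    have ha := Hom.iter_sep h γ hs k a (fun i => congrArg Prod.fst (hx i))
    have hb := Hom.iter_sep h γ hs k b (fun i => congrArg Prod.snd (hx i))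
    exact Prod.ext ha hb

/-- A homomorphism of commutative coefficient algebras induces a homomorphism. -/
def firstMap {R S : Type u} [CommRing R] [Algebra F R] [CommRing S] [Algebra F S]
    (φ : R →ₐ[F] S) (α : F) : Hom (firstR R α) (firstR S α) where
  f := LinearMap.prodMap φ.toLinearMap φ.toLinearMap
  map_mul := by
    rintro ⟨a, b⟩ ⟨c, d⟩
    change (φ (a * c + algebraMap F R α * (b * d)), φ (a * d + b * c + b * d)) =
      (φ a * φ c + algebraMap F S α * (φ b * φ d), φ a * φ d + φ b * φ c + φ b * φ d)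
    simp only [map_add, map_mul, AlgHom.commutes]
  map_conj := by
    rintro ⟨a, b⟩
    change (φ (a + b), φ (-b)) = (φ a + φ b, -φ b)
    simp only [map_add, map_neg]

theorem firstR_self (α : F) : firstR F α = first α := rfl

section
variable {A B : Type u} [NonUnitalNonAssocRing A] [Module F A] [IsScalarTower F A A]
    [SMulCommClass F A A] [NonUnitalNonAssocRing B] [Module F B] [IsScalarTower F B B]
    [SMulCommClass F B B]

theorem lift_comp (φ : A →ₙₐ[F] B) (x : ℕ → A) (f : FreeNonUnitalNonAssocAlgebra F ℕ) :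
    φ (FreeNonUnitalNonAssocAlgebra.lift F x f) =
      FreeNonUnitalNonAssocAlgebra.lift F (φ ∘ x) f := by
  have : φ.comp (FreeNonUnitalNonAssocAlgebra.lift F x) =
      FreeNonUnitalNonAssocAlgebra.lift F (φ ∘ x) := by
    refine FreeNonUnitalNonAssocAlgebra.hom_ext F fun i => ?_
    simp
  exact DFunLike.congr_fun this f

theorem IsIdentity.of_sep {ι : Type*} (φ : ι → (A →ₙₐ[F] B))
    (hs : ∀ x, (∀ i, φ i x = 0) → x = 0) {f : FreeNonUnitalNonAssocAlgebra F ℕ}
    (hf : IsIdentity F B f) : IsIdentity F A f := fun x =>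
  hs _ fun i => by rw [lift_comp]; exact hf _

theorem IsIdentity.of_surj (φ : A →ₙₐ[F] B) (hs : Function.Surjective φ)
    {f : FreeNonUnitalNonAssocAlgebra F ℕ} (hf : IsIdentity F A f) : IsIdentity F B f := by
  intro x
  choose y hy using fun i => hs (x i)
  have : x = φ ∘ y := funext fun i => (hy i).symm
  rw [this, ← lift_comp, hf y, map_zero]

end

/-- Over an infinite field the identities survive extension of scalars. -/
theorem identity_ext [Infinite F] (K : Type u) [CommRing K] [Algebra F K] (α : F) (γ : ℕ → F)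
    (k : ℕ) {f : FreeNonUnitalNonAssocAlgebra F ℕ} (hf : IsIdentity F (iter (first α) γ k).V f) :
    IsIdentity F (iter (firstR K α) γ k).V f := by
  have h1 : IsIdentity F (iter (firstR (MvPolynomial K F) α) γ k).V f := by
    refine IsIdentity.of_sep (ι := K → F)
      (fun t => ((firstMap (MvPolynomial.aeval t : MvPolynomial K F →ₐ[F] F) α).iter γ k).toAlg)
      ?_ hf
    refine Hom.iter_sep (fun t : K → F =>
      firstMap (MvPolynomial.aeval t : MvPolynomial K F →ₐ[F] F) α) γ ?_ k
    rintro ⟨a, b⟩ h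
    refine Prod.ext ?_ ?_
    · refine MvPolynomial.funext fun t => ?_
      have : MvPolynomial.aeval t a = (0 : F) := congrArg Prod.fst (h t)
      change MvPolynomial.eval t a = MvPolynomial.eval t 0
      simpa [MvPolynomial.aeval_eq_eval] using this
    · refine MvPolynomial.funext fun t => ?_
      have : MvPolynomial.aeval t b = (0 : F) := congrArg Prod.snd (h t)
      change MvPolynomial.eval t b = MvPolynomial.eval t 0
      simpa [MvPolynomial.aeval_eq_eval] using this
  refine IsIdentity.of_surj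
    ((firstMap (MvPolynomial.aeval id : MvPolynomial K F →ₐ[F] K) α).iter γ k).toAlg ?_ h1
  refine Hom.iter_surj _ γ ?_ k
  rintro ⟨a, b⟩
  refine ⟨(MvPolynomial.X a, MvPolynomial.X b), ?_⟩
  change (MvPolynomial.aeval id (MvPolynomial.X a : MvPolynomial K F),
    MvPolynomial.aeval id (MvPolynomial.X b : MvPolynomial K F)) = (a, b)
  simp

/-- The inclusion of an algebra in its double. -/
def incl (A : InvAlg F) (γ : F) : A.V →ₙₐ[F] (double A γ).V where
  toFun := fun a => (a, 0)
  map_smul' := fun c a => by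
    change ((c • a, 0) : A.V × A.V) = (c • a, c • 0)
    rw [smul_zero]
  map_zero' := rfl
  map_add' := fun a b => by
    change ((a + b, 0) : A.V × A.V) = (a + b, 0 + 0)
    rw [add_zero]
  map_mul' := fun a b => by
    rw [double_mul]
    simp

theorem identity_down (A : InvAlg F) (γ : ℕ → F) {f : FreeNonUnitalNonAssocAlgebra F ℕ}
    (j : ℕ) : ∀ k, IsIdentity F (iter A γ (j + k)).V f → IsIdentity F (iter A γ j).V f
  | 0 => id
  | k + 1 => fun h => identity_down A γ j k
      (IsIdentity.of_sep (ι := Unit) (fun _ => incl (iter A γ (j + k)) (γ (j + k + 2)))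
        (fun _ hx => congrArg Prod.fst (hx ())) h)

end Pool.Agent.H475Z.CD
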